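import Pool.Agent.N236.RT.Stm

/-!
# RT/DIM: dimensions
-/

set_option autoImplicit false

namespace Pool.Agent.N539.RT

open MvPolynomial Module
open Pool.Agent.N236.RT

theorem bd_iff {R : Type*} [CommSemiring R] (A B : ℕ) (P : Pol R) :
    Bd A B P ↔ degreeOf 0 P ≤ A ∧ degreeOf 1 P ≤ B := by
  rw [degreeOf_le_iff, degreeOf_le_iff]
  exact ⟨fun h => ⟨fun m hm => (h m hm).1, fun m hm => (h m hm).2⟩,
    fun h m hm => ⟨h.1 m hm, h.2 m hm⟩⟩

/-- the monomials in a box -/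
noncomputable def mo (p q : ℕ) (ij : Fin p × Fin q) : Pol ℚ :=
  monomial (Finsupp.single 0 (ij.1 : ℕ) + Finsupp.single 1 (ij.2 : ℕ)) 1

theorem mo_li (p q : ℕ) : LinearIndependent ℚ (mo p q) := by
  have hinj : Function.Injective (fun ij : Fin p × Fin q =>
      (Finsupp.single 0 (ij.1 : ℕ) + Finsupp.single 1 (ij.2 : ℕ) : Fin 2 →₀ ℕ)) := by
    rintro ⟨i, j⟩ ⟨i', j'⟩ h
    have h0 := DFunLike.congr_fun h 0
    have h1 := DFunLike.congr_fun h 1
    simp at h0 h1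
    exact Prod.ext (Fin.ext h0) (Fin.ext h1)
  have h := (basisMonomials (Fin 2) ℚ).linearIndependent.comp _ hinj
  rw [coe_basisMonomials] at h
  exact h

theorem mo_bd (p q : ℕ) (ij : Fin p × Fin q) : degreeOf 0 (mo p q ij) ≤ (ij.1 : ℕ) ∧
    degreeOf 1 (mo p q ij) ≤ (ij.2 : ℕ) := by
  unfold mo
  rw [degreeOf_monomial_eq _ _ one_ne_zero, degreeOf_monomial_eq _ _ one_ne_zero]
  simp

theorem mk_fin {ι : Type} [Fintype ι] (g : ι → Pol ℚ) (hg : LinearIndependent ℚ g) :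
    ∃ W : Finset (Pol ℚ), (∀ P ∈ W, ∃ i, g i = P) ∧
      LinearIndependent ℚ (fun P : W => (P : Pol ℚ)) ∧ W.card = Fintype.card ι := by
  classical
  refine ⟨Finset.univ.image g, fun P hP => ?_, ?_, ?_⟩
  · obtain ⟨i, _, hi⟩ := Finset.mem_image.1 hP
    exact ⟨i, hi⟩
  · have h1 : LinearIndepOn ℚ id (Set.range g) := hg.linearIndepOn_id
    have h2 : ((Finset.univ.image g : Finset (Pol ℚ)) : Set (Pol ℚ)) = Set.range g := by
      simp
    rw [← h2] at h1
    exact h1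
  · rw [Finset.card_image_of_injective _ hg.injective, Finset.card_univ]

/-- DIM2 -/
theorem t_dim2 (h3 : S_TAY3) : S_DIM2 := by
  intro K _ _ x y A B T a b F hF0 hFb hFe hTa hTb
  have hinj : Function.Injective (LinearMap.mulLeft ℚ (F ^ T)) := by
    intro P Q h
    simp only [LinearMap.mulLeft_apply] at h
    exact mul_left_cancel₀ (pow_ne_zero _ hF0) h
  have hli : LinearIndependent ℚ (fun ij => F ^ T * mo (A + 1 - T * a) (B + 1 - T * b) ij) :=
    (mo_li (A + 1 - T * a) (B + 1 - T * b)).map' (LinearMap.mulLeft ℚ (F ^ T))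
      (LinearMap.ker_eq_bot.2 hinj)
  obtain ⟨W, hW1, hW2, hW3⟩ := mk_fin _ hli
  refine ⟨W, fun P hP => ?_, hW2, ?_⟩
  · obtain ⟨ij, rfl⟩ := hW1 P hP
    refine ⟨?_, h3 ℚ K F _ x y T hFe⟩
    rw [bd_iff] at hFb ⊢
    have h1 := mo_bd _ _ ij
    have h2 := ij.1.2
    have h3 := ij.2.2
    constructor
    · refine (degreeOf_mul_le _ _ _).trans ?_
      have h4 := degreeOf_pow_le 0 F T
      have h5 := Nat.mul_le_mul_left T hFb.1
      omega
    · refine (degreeOf_mul_le _ _ _).trans ?_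
      have h4 := degreeOf_pow_le 1 F T
      have h5 := Nat.mul_le_mul_left T hFb.2
      omega
  · rw [hW3, Fintype.card_prod, Fintype.card_fin, Fintype.card_fin]

/-- the derivatives as linear maps -/
noncomputable def Dl (h5 : S_TAY5) (a b : ℕ) : Pol ℚ →ₗ[ℚ] Pol ℚ where
  toFun := D a b
  map_add' := (h5 ℚ a b).1
  map_smul' c P := by
    rw [smul_eq_C_mul, (h5 ℚ a b).2, RingHom.id_apply, smul_eq_C_mul]

/-- DIM1 -/
theorem t_dim1 (h5 : S_TAY5) : S_DIM1 := by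
  intro K _ _ x y A B T
  obtain ⟨Φ, hΦ⟩ : ∃ Φ : (Fin (A + 1) × Fin (B + 1) → ℚ) →ₗ[ℚ] Pol ℚ,
    Φ = Fintype.linearCombination ℚ (mo (A + 1) (B + 1)) := ⟨_, rfl⟩
  have hΦi : Function.Injective Φ := by
    rw [hΦ]
    exact (mo_li (A + 1) (B + 1)).fintypeLinearCombination_injective
  have hΦb : ∀ c, Bd A B (Φ c) := by
    intro c
    rw [bd_iff, hΦ, Fintype.linearCombination_apply]
    constructor
    · refine (degreeOf_sum_le _ _ _).trans (Finset.sup_le fun ij _ => ?_)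
      rw [smul_eq_C_mul]
      refine (degreeOf_C_mul_le _ _ _).trans ?_
      have h1 := (mo_bd _ _ ij).1
      have h2 := ij.1.2
      omega
    · refine (degreeOf_sum_le _ _ _).trans (Finset.sup_le fun ij _ => ?_)
      rw [smul_eq_C_mul]
      refine (degreeOf_C_mul_le _ _ _).trans ?_
      have h1 := (mo_bd _ _ ij).2
      have h2 := ij.2.2
      omega
  obtain ⟨Ψ, hΨ⟩ : ∃ Ψ : (Fin (A + 1) × Fin (B + 1) → ℚ) →ₗ[ℚ] (Fin T × Fin T → K),
    Ψ = LinearMap.pi fun ab => (aeval ![x, y] : Pol ℚ →ₐ[ℚ] K).toLinearMap ∘ₗ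
      (Dl h5 ab.1 ab.2) ∘ₗ Φ := ⟨_, rfl⟩
  have hΨa : ∀ c ab, Ψ c ab = ev x y (D (ab.1 : ℕ) (ab.2 : ℕ) (Φ c)) := by
    intro c ab
    rw [hΨ]
    rfl
  have hdim : (A + 1) * (B + 1) ≤ finrank ℚ (LinearMap.ker Ψ) + finrank ℚ K * T ^ 2 := by
    have h1 := LinearMap.finrank_range_add_finrank_ker Ψ
    have h2 : finrank ℚ (LinearMap.range Ψ) ≤ finrank ℚ (Fin T × Fin T → K) :=
      Submodule.finrank_le _
    rw [Module.finrank_pi_fintype] at h2
    simp only [Finset.sum_const, Finset.card_univ, Fintype.card_prod, Fintype.card_fin,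
      smul_eq_mul] at h2
    rw [Module.finrank_fintype_fun_eq_card, Fintype.card_prod, Fintype.card_fin,
      Fintype.card_fin] at h1
    rw [← h1, add_comm]
    have h3 : T * T * finrank ℚ K = finrank ℚ K * T ^ 2 := by ring
    rw [h3] at h2
    exact Nat.add_le_add_left h2 _
  obtain ⟨β, hβ⟩ : ∃ β : Basis (Fin (finrank ℚ (LinearMap.ker Ψ))) ℚ (LinearMap.ker Ψ), True :=
    ⟨Module.finBasis ℚ _, trivial⟩
  have hli : LinearIndependent ℚ (fun i => Φ ((β i : LinearMap.ker Ψ) : _ → ℚ)) := by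
    have h1 := (β.linearIndependent.map' (LinearMap.ker Ψ).subtype (Submodule.ker_subtype _)).map'
      Φ (LinearMap.ker_eq_bot.2 hΦi)
    exact h1
  obtain ⟨W, hW1, hW2, hW3⟩ := mk_fin _ hli
  refine ⟨W, fun P hP => ?_, hW2, ?_⟩
  · obtain ⟨i, rfl⟩ := hW1 P hP
    refine ⟨hΦb _, fun a b hab => ?_⟩
    have h1 : Ψ ((β i : LinearMap.ker Ψ) : _ → ℚ) = 0 := (β i).2
    have h2 := congrFun h1 (⟨a, by omega⟩, ⟨b, by omega⟩)
    rw [hΨa] at h2
    exact h2
  · rw [hW3, Fintype.card_fin]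
    exact hdim

end Pool.Agent.N539.RT
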